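import Mathlib
import Pool.Agent.L5helper23.PL.PowSum

/-!
# The Eisenstein series of level one separate the points of `SL₂(ℤ) \ ℍ` up to scaling
-/

set_option autoImplicit false

namespace Pool.Agent.L5helper67

open UpperHalfPlane ModularForm MatrixGroups EisensteinSeries

/-- the value of the lattice vector -/
noncomputable def LL (τ : ℍ) (v : Fin 2 → ℤ) : ℂ := (v 0 : ℂ) * (τ : ℂ) + (v 1 : ℂ)

theorem E_apply_eq {k : ℕ} (hk : 3 ≤ k) (τ : ℍ) :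
    E hk τ = 1 / 2 * ∑' v : gammaSet 1 1 (0 : Fin 2 → ZMod 1), (LL τ v.1) ^ (-(k : ℤ)) := by
  rfl

theorem LL_ne {τ : ℍ} {v : Fin 2 → ℤ} (hv : v ≠ 0) : LL τ v ≠ 0 := by
  intro h
  have h1 : (LL τ v).im = (v 0 : ℝ) * τ.im := by simp [LL]
  rw [h] at h1
  have h2 : (v 0 : ℝ) = 0 := by
    rcases mul_eq_zero.1 h1.symm with h2 | h2
    · exact h2
    · exact absurd h2 τ.im_pos.ne'
  have h3 : v 0 = 0 := by exact_mod_cast h2
  have h4 : LL τ v = (v 1 : ℂ) := by simp [LL, h3]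
  rw [h] at h4
  have h5 : v 1 = 0 := by exact_mod_cast h4.symm
  apply hv
  funext i
  fin_cases i
  · exact h3
  · exact h5

theorem gs_ne {v : Fin 2 → ℤ} (hv : v ∈ gammaSet 1 1 (0 : Fin 2 → ZMod 1)) : v ≠ 0 := by
  rintro rfl
  rw [gammaSet_one_mem_iff] at hv
  simp at hv

theorem gs_neg {v : Fin 2 → ℤ} (hv : v ∈ gammaSet 1 1 (0 : Fin 2 → ZMod 1)) :
    -v ∈ gammaSet 1 1 (0 : Fin 2 → ZMod 1) := by
  rw [gammaSet_one_mem_iff] at hv ⊢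
  simpa using hv

theorem LL_neg (τ : ℍ) (v : Fin 2 → ℤ) : LL τ (-v) = - LL τ v := by
  simp [LL]; ring

theorem summ (τ : ℍ) (t : ℂ) :
    Summable fun v : gammaSet 1 1 (0 : Fin 2 → ZMod 1) => ‖(t * LL τ v.1) ^ 2‖⁻¹ ^ 2 := by
  have h1 : Summable fun x : Fin 2 → ℤ => ‖x‖ ^ (-(4 : ℝ)) :=
    summable_one_div_norm_rpow (by norm_num)
  have h2 : Summable fun x : Fin 2 → ℤ => (r τ) ^ (-(4 : ℝ)) * ‖x‖ ^ (-(4 : ℝ)) :=
    h1.mul_left _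
  have h3 : Summable fun x : Fin 2 → ℤ => ‖LL τ x‖ ^ (-(4 : ℝ)) := by
    refine Summable.of_nonneg_of_le (fun x => by positivity) (fun x => ?_) h2
    exact summand_bound τ (by norm_num) x
  have h4 := (h3.mul_left (‖t‖⁻¹ ^ 4)).subtype (gammaSet 1 1 (0 : Fin 2 → ZMod 1))
  refine h4.congr fun v => ?_
  simp only [Function.comp_apply]
  rw [norm_pow, norm_mul, mul_pow, mul_inv, mul_pow, Real.rpow_neg (norm_nonneg _)]
  have h5 : ‖LL τ v.1‖ ^ (4 : ℝ) = ‖LL τ v.1‖ ^ 4 := by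
    exact_mod_cast Real.rpow_natCast ‖LL τ v.1‖ 4
  rw [h5, inv_pow, inv_pow, inv_pow, ← pow_mul, ← pow_mul]

/-- the summand in the form needed for `powsum` -/
theorem term_eq (τ : ℍ) (t : ℂ) (v : Fin 2 → ℤ) (n : ℕ) :
    ((t * LL τ v) ^ 2)⁻¹ ^ (n + 2) = t⁻¹ ^ (2 * (n + 2)) * (LL τ v) ^ (-((2 * (n + 2) : ℕ) : ℤ)) := by
  rw [zpow_neg, zpow_natCast, mul_pow, mul_inv, mul_pow, ← inv_pow, ← inv_pow, ← inv_pow,
    ← pow_mul, ← pow_mul]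

theorem summ' (τ : ℍ) (t : ℂ) (n : ℕ) :
    Summable fun v : gammaSet 1 1 (0 : Fin 2 → ZMod 1) => ((t * LL τ v.1) ^ 2)⁻¹ ^ (n + 2) := by
  have h1 := summ τ t
  have h2 : Summable fun v : gammaSet 1 1 (0 : Fin 2 → ZMod 1) =>
      ‖((t * LL τ v.1) ^ 2)⁻¹ ^ (n + 2)‖ := by
    refine summable_of_isBigO h1 ?_
    have h3 : Filter.Tendsto (fun v : gammaSet 1 1 (0 : Fin 2 → ZMod 1) =>
        ‖(t * LL τ v.1) ^ 2‖⁻¹ ^ 2) Filter.cofinite (nhds 0) := h1.tendsto_cofinite_zero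
    have h4 : ∀ᶠ v : gammaSet 1 1 (0 : Fin 2 → ZMod 1) in Filter.cofinite,
        ‖(t * LL τ v.1) ^ 2‖⁻¹ ^ 2 < 1 := h3.eventually (gt_mem_nhds one_pos)
    refine Asymptotics.IsBigO.of_bound 1 ?_
    filter_upwards [h4] with v hv
    rw [one_mul, norm_norm, norm_pow, norm_inv, Real.norm_of_nonneg (by positivity), pow_add]
    have h5 : ‖(t * LL τ v.1) ^ 2‖⁻¹ ≤ 1 := by
      by_contra h6
      push Not at h6
      nlinarith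
    have h6 : ‖(t * LL τ v.1) ^ 2‖⁻¹ ^ n ≤ 1 := pow_le_one₀ (by positivity) h5
    have h7 : 0 ≤ ‖(t * LL τ v.1) ^ 2‖⁻¹ ^ 2 := by positivity
    nlinarith
  exact h2.of_norm

/-- the two families of squares have the same values -/
theorem key {τ₁ τ₂ : ℍ} {s : ℂ} (hs : s ≠ 0)
    (h : ∀ (k : ℕ) (hk : 3 ≤ k), E hk τ₂ = s ^ k * E hk τ₁) (a : ℂ) :
    (∃ v ∈ gammaSet 1 1 (0 : Fin 2 → ZMod 1), (s * LL τ₂ v) ^ 2 = a) ↔
    (∃ v ∈ gammaSet 1 1 (0 : Fin 2 → ZMod 1), (1 * LL τ₁ v) ^ 2 = a) := by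
  classical
  set G := gammaSet 1 1 (0 : Fin 2 → ZMod 1) with hG
  let γ : G ⊕ G → ℂ := Sum.elim (fun v => (s * LL τ₂ v.1) ^ 2) (fun v => (1 * LL τ₁ v.1) ^ 2)
  let c : G ⊕ G → ℂ := Sum.elim (fun _ => 1) (fun _ => -1)
  have hγ : ∀ i, γ i ≠ 0 := by
    rintro (v | v)
    · exact pow_ne_zero 2 (mul_ne_zero hs (LL_ne (gs_ne v.2)))
    · exact pow_ne_zero 2 (mul_ne_zero one_ne_zero (LL_ne (gs_ne v.2)))
  have hc : ∀ i, ‖c i‖ ≤ 1 := by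
    rintro (v | v) <;> simp [c]
  have hsum : Summable fun i => ‖γ i‖⁻¹ ^ 2 := by
    refine Summable.sum _ ?_ ?_
    · exact summ τ₂ s
    · exact summ τ₁ 1
  have hk : ∀ n : ℕ, 3 ≤ 2 * (n + 2) := fun n => by omega
  have h0 : ∀ n : ℕ, ∑' i, c i * (γ i)⁻¹ ^ (n + 2) = 0 := by
    intro n
    have e1 : ∑' v : G, ((s * LL τ₂ v.1) ^ 2)⁻¹ ^ (n + 2) =
        s⁻¹ ^ (2 * (n + 2)) * ∑' v : G, (LL τ₂ v.1) ^ (-((2 * (n + 2) : ℕ) : ℤ)) := by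
      rw [← tsum_mul_left]
      exact tsum_congr fun v => term_eq τ₂ s v.1 n
    have e2 : ∑' v : G, ((1 * LL τ₁ v.1) ^ 2)⁻¹ ^ (n + 2) =
        ∑' v : G, (LL τ₁ v.1) ^ (-((2 * (n + 2) : ℕ) : ℤ)) := by
      refine tsum_congr fun v => ?_
      rw [term_eq τ₁ 1 v.1 n]
      simp
    have e3 := h (2 * (n + 2)) (hk n)
    rw [E_apply_eq, E_apply_eq] at e3
    have hsplit := Summable.tsum_sum (f := fun i => c i * (γ i)⁻¹ ^ (n + 2))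
      (by
        have := summ' τ₂ s n
        simpa [Function.comp_def, c, γ] using this)
      (by
        have := (summ' τ₁ 1 n).neg
        simpa [Function.comp_def, c, γ] using this)
    rw [hsplit]
    have e4 : ∑' v : G, c (Sum.inl v) * (γ (Sum.inl v))⁻¹ ^ (n + 2) =
        ∑' v : G, ((s * LL τ₂ v.1) ^ 2)⁻¹ ^ (n + 2) := by
      refine tsum_congr fun v => ?_
      simp [c, γ]
    have e5 : ∑' v : G, c (Sum.inr v) * (γ (Sum.inr v))⁻¹ ^ (n + 2) =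
        - ∑' v : G, ((1 * LL τ₁ v.1) ^ 2)⁻¹ ^ (n + 2) := by
      rw [← tsum_neg]
      refine tsum_congr fun v => ?_
      simp [c, γ]
    rw [e4, e5, e1, e2]
    have e6 : ∑' v : G, (LL τ₂ v.1) ^ (-((2 * (n + 2) : ℕ) : ℤ)) =
        s ^ (2 * (n + 2)) * ∑' v : G, (LL τ₁ v.1) ^ (-((2 * (n + 2) : ℕ) : ℤ)) := by
      have : (1 / 2 : ℂ) ≠ 0 := by norm_num
      apply mul_left_cancel₀ this
      rw [e3]; ring
    rw [e6, ← mul_assoc, ← mul_pow, inv_mul_cancel₀ hs, one_pow, one_mul, add_neg_cancel]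
  have hps := Pool.Agent.L5helper23.PL.powsum γ c hγ hc hsum h0 a
  -- the fibre is finite
  by_cases ha : a = 0
  · constructor
    · rintro ⟨v, hv, hva⟩
      exact absurd (hva.trans ha) (hγ (Sum.inl ⟨v, hv⟩))
    · rintro ⟨v, hv, hva⟩
      exact absurd (hva.trans ha) (hγ (Sum.inr ⟨v, hv⟩))
  have hfin : {i | γ i = a}.Finite := by
    have h1 := hsum.tendsto_cofinite_zero
    have hpos : 0 < ‖a‖⁻¹ ^ 2 := by
      have := norm_pos_iff.2 ha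
      positivity
    have h2 : ∀ᶠ i in Filter.cofinite, ‖γ i‖⁻¹ ^ 2 < ‖a‖⁻¹ ^ 2 :=
      h1.eventually (gt_mem_nhds hpos)
    refine (h2 : {i | ¬ (‖γ i‖⁻¹ ^ 2 < ‖a‖⁻¹ ^ 2)}.Finite).subset fun i hi => ?_
    have hi' : γ i = a := hi
    intro (hlt : ‖γ i‖⁻¹ ^ 2 < ‖a‖⁻¹ ^ 2)
    rw [hi'] at hlt
    exact lt_irrefl _ hlt
  have hps2 : ∑ i ∈ hfin.toFinset, c i = 0 := by
    rw [← hps, finsum_mem_eq_finite_toFinset_sum _ hfin]
  constructor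
  · rintro ⟨v, hv, hva⟩
    by_contra hno
    have h1 : ∀ i ∈ hfin.toFinset, c i = 1 := by
      intro i hi
      rw [Set.Finite.mem_toFinset] at hi
      rcases i with w | w
      · rfl
      · exact absurd ⟨w.1, w.2, hi⟩ hno
    rw [Finset.sum_congr rfl h1, Finset.sum_const, nsmul_eq_mul, mul_one] at hps2
    have h2 : hfin.toFinset.card = 0 := by exact_mod_cast hps2
    rw [Finset.card_eq_zero] at h2
    have h3 : (Sum.inl ⟨v, hv⟩ : G ⊕ G) ∈ hfin.toFinset := by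
      rw [Set.Finite.mem_toFinset]; exact hva
    rw [h2] at h3
    simp at h3
  · rintro ⟨v, hv, hva⟩
    by_contra hno
    have h1 : ∀ i ∈ hfin.toFinset, c i = -1 := by
      intro i hi
      rw [Set.Finite.mem_toFinset] at hi
      rcases i with w | w
      · exact absurd ⟨w.1, w.2, hi⟩ hno
      · rfl
    rw [Finset.sum_congr rfl h1, Finset.sum_const, nsmul_eq_mul, mul_neg, mul_one,
      neg_eq_zero] at hps2
    have h2 : hfin.toFinset.card = 0 := by exact_mod_cast hps2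
    rw [Finset.card_eq_zero] at h2
    have h3 : (Sum.inr ⟨v, hv⟩ : G ⊕ G) ∈ hfin.toFinset := by
      rw [Set.Finite.mem_toFinset]; exact hva
    rw [h2] at h3
    simp at h3

theorem fwd {τ₁ τ₂ : ℍ} {s : ℂ} (hs : s ≠ 0)
    (h : ∀ (k : ℕ) (hk : 3 ≤ k), E hk τ₂ = s ^ k * E hk τ₁) (v : Fin 2 → ℤ)
    (hv : v ∈ gammaSet 1 1 (0 : Fin 2 → ZMod 1)) : ∃ w : Fin 2 → ℤ, s * LL τ₂ v = LL τ₁ w := by
  obtain ⟨w, hw, he⟩ := (key hs h _).1 ⟨v, hv, rfl⟩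
  rw [one_mul] at he
  rcases sq_eq_sq_iff_eq_or_eq_neg.1 he with h1 | h1
  · exact ⟨w, h1.symm⟩
  · exact ⟨-w, by rw [LL_neg, h1, neg_neg]⟩

theorem bwd {τ₁ τ₂ : ℍ} {s : ℂ} (hs : s ≠ 0)
    (h : ∀ (k : ℕ) (hk : 3 ≤ k), E hk τ₂ = s ^ k * E hk τ₁) (v : Fin 2 → ℤ)
    (hv : v ∈ gammaSet 1 1 (0 : Fin 2 → ZMod 1)) : ∃ w : Fin 2 → ℤ, LL τ₁ v = s * LL τ₂ w := by
  obtain ⟨w, hw, he⟩ := (key hs h _).2 ⟨v, hv, rfl⟩
  rw [one_mul] at he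
  rcases sq_eq_sq_iff_eq_or_eq_neg.1 he with h1 | h1
  · exact ⟨w, h1.symm⟩
  · exact ⟨-w, by rw [LL_neg, mul_neg, h1, neg_neg]⟩

theorem lin_ind {τ : ℍ} {a b : ℤ} (h : (a : ℂ) * (τ : ℂ) + (b : ℂ) = 0) : a = 0 ∧ b = 0 := by
  have h1 := LL_ne (τ := τ) (v := ![a, b])
  have h2 : LL τ ![a, b] = 0 := by simpa [LL] using h
  by_contra h3
  apply h1 _ h2
  intro h4
  apply h3
  have h5 := congrFun h4 0
  have h6 := congrFun h4 1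
  simp at h5 h6
  exact ⟨h5, h6⟩

theorem eisenstein_separate {τ₁ τ₂ : ℍ} {s : ℂ} (hs : s ≠ 0)
    (h : ∀ (k : ℕ) (hk : 3 ≤ k), E hk τ₂ = s ^ k * E hk τ₁) : ∃ γ : SL(2, ℤ), τ₂ = γ • τ₁ := by
  have m10 : ![(1 : ℤ), 0] ∈ gammaSet 1 1 (0 : Fin 2 → ZMod 1) := by
    rw [gammaSet_one_mem_iff]; simp
  have m01 : ![(0 : ℤ), 1] ∈ gammaSet 1 1 (0 : Fin 2 → ZMod 1) := by
    rw [gammaSet_one_mem_iff]; simp
  obtain ⟨w, hw⟩ := fwd hs h _ m10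
  obtain ⟨w', hw'⟩ := fwd hs h _ m01
  obtain ⟨u, hu⟩ := bwd hs h _ m10
  obtain ⟨u', hu'⟩ := bwd hs h _ m01
  simp only [LL, Matrix.cons_val_zero, Matrix.cons_val_one, Int.cast_one, Int.cast_zero, one_mul,
    zero_mul, add_zero, zero_add, mul_one] at hw hw' hu hu'
  have e1 : ((u 0 * w 0 + u 1 * w' 0 - 1 : ℤ) : ℂ) * (τ₁ : ℂ) +
      ((u 0 * w 1 + u 1 * w' 1 : ℤ) : ℂ) = 0 := by
    push_cast
    linear_combination (-1 : ℂ) * hu - (u 0 : ℂ) * hw - (u 1 : ℂ) * hw'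
  have e2 : ((u' 0 * w 0 + u' 1 * w' 0 : ℤ) : ℂ) * (τ₁ : ℂ) +
      ((u' 0 * w 1 + u' 1 * w' 1 - 1 : ℤ) : ℂ) = 0 := by
    push_cast
    linear_combination (-1 : ℂ) * hu' - (u' 0 : ℂ) * hw - (u' 1 : ℂ) * hw'
  obtain ⟨f1, f2⟩ := lin_ind e1
  obtain ⟨f3, f4⟩ := lin_ind e2
  have hdet : (u 0 * u' 1 - u 1 * u' 0) * (w 0 * w' 1 - w 1 * w' 0) = 1 := by
    have g1 : u 0 * w 0 + u 1 * w' 0 = 1 := by linarith
    have g4 : u' 0 * w 1 + u' 1 * w' 1 = 1 := by linarith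
    calc (u 0 * u' 1 - u 1 * u' 0) * (w 0 * w' 1 - w 1 * w' 0)
        = (u 0 * w 0 + u 1 * w' 0) * (u' 0 * w 1 + u' 1 * w' 1) -
          (u 0 * w 1 + u 1 * w' 1) * (u' 0 * w 0 + u' 1 * w' 0) := by ring
      _ = 1 := by rw [g1, g4, f2, f3]; ring
  have hne : (w' 0 : ℂ) * (τ₁ : ℂ) + (w' 1 : ℂ) ≠ 0 := by rw [← hw']; exact hs
  have hτ : (τ₂ : ℂ) = ((w 0 : ℂ) * (τ₁ : ℂ) + (w 1 : ℂ)) / ((w' 0 : ℂ) * (τ₁ : ℂ) + (w' 1 : ℂ)) := by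
    rw [← hw, ← hw', mul_div_cancel_left₀ _ hs]
  have him : (τ₂ : ℂ).im * Complex.normSq ((w' 0 : ℂ) * (τ₁ : ℂ) + (w' 1 : ℂ)) =
      ((w 0 * w' 1 - w 1 * w' 0 : ℤ) : ℝ) * (τ₁ : ℂ).im := by
    have hn : Complex.normSq ((w' 0 : ℂ) * (τ₁ : ℂ) + (w' 1 : ℂ)) ≠ 0 := by
      rwa [Ne, Complex.normSq_eq_zero]
    rw [hτ, Complex.div_im, sub_mul, div_mul_cancel₀ _ hn, div_mul_cancel₀ _ hn]
    push_cast
    simp
    ring
  have hdpos : 0 < w 0 * w' 1 - w 1 * w' 0 := by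
    have h1 : 0 < (τ₂ : ℂ).im * Complex.normSq ((w' 0 : ℂ) * (τ₁ : ℂ) + (w' 1 : ℂ)) :=
      mul_pos τ₂.im_pos (Complex.normSq_pos.2 hne)
    rw [him] at h1
    have h2 := (pos_iff_pos_of_mul_pos h1).2 τ₁.im_pos
    exact_mod_cast h2
  have hd1 : w 0 * w' 1 - w 1 * w' 0 = 1 := by
    have hu : IsUnit (w 0 * w' 1 - w 1 * w' 0) := IsUnit.of_mul_eq_one_right _ hdet
    rcases Int.isUnit_iff.1 hu with h1 | h1
    · exact h1
    · omega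
  refine ⟨⟨!![w 0, w 1; w' 0, w' 1], by rw [Matrix.det_fin_two_of]; exact hd1⟩, ?_⟩
  apply UpperHalfPlane.ext
  rw [UpperHalfPlane.specialLinearGroup_apply, hτ]
  simp

end Pool.Agent.L5helper67
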