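import Pool.Agent.L5helper32.GP.D.Defs

/-! Job D5: step_prime and step_comp, from prob_q. -/

set_option autoImplicit false

open Finset MeasureTheory ProbabilityTheory Filter Topology

namespace Pool.Agent.L5helper32.GP

open Pool.Agent.L5helper32.GR (Root w pr sg Dep lev q)

namespace D5Aux

lemma dep_union {ι : Type} [DecidableEq ι] {S S' : Finset ι} {A B : Set (ι → ℕ)} (hA : Dep S A)
    (hB : Dep S' B) : Dep (S ∪ S') (A ∩ B) := by
  intro f g h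
  have h1 := hA f g fun i hi => h i (mem_union_left _ hi)
  have h2 := hB f g fun i hi => h i (mem_union_right _ hi)
  exact and_congr h1 h2

lemma dep_compl {ι : Type} {S : Finset ι} {A : Set (ι → ℕ)} (hA : Dep S A) : Dep S Aᶜ :=
  fun f g h => not_congr (hA f g h)

lemma t_mul_q (p t : ℕ) : t * q p t + 1 = (t + 1) ^ p := by
  have h1 : q p t = ∑ m ∈ range p, p.choose (m + 1) * t ^ m := by
    unfold q
    have h2 : Icc 1 p = Ico 1 (p + 1) := by
      ext x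
      simp only [mem_Icc, mem_Ico]
      omega
    rw [h2, Finset.sum_Ico_eq_sum_range]
    refine Finset.sum_congr (by simp) fun m _ => ?_
    rw [add_comm 1 m, Nat.add_sub_cancel]
  rw [h1, add_pow, Finset.sum_range_succ', Finset.mul_sum]
  simp only [one_pow, mul_one, pow_zero, Nat.choose_zero_right]
  congr 1
  refine Finset.sum_congr rfl fun m _ => ?_
  rw [pow_succ, Nat.cast_id]
  ring

lemma root_of_dvd {p r t : ℕ} (h : r ∣ q p t) : Root p r t := by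
  unfold Root
  rw [← t_mul_q]
  have h1 : t * q p t ≡ 0 [MOD r] := (Nat.modEq_zero_iff_dvd).2 (Dvd.dvd.mul_left h t)
  simpa using h1.add_right 1

variable {Ω : Type} [MeasurableSpace Ω] {μ : Measure Ω} [IsProbabilityMeasure μ]
  {T : ℕ × ℕ × ℕ → Ω → ℕ}

/-- The event of the large primes at the level `n` is independent of the earlier ones. -/
lemma prodB (h : Res μ T) {p z n R M : ℕ} (hp : 1 ≤ p) (hz : 1 ≤ z) {A : Set (ℕ × ℕ × ℕ → ℕ)}
    (hA : Dep (bx (range ((lev p z + 3) / 4)) R) A) (hn : lev p z ≤ 4 * n)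
    {B : Set (ℕ × ℕ × ℕ → ℕ)} (hB : Dep ({n} ×ˢ (Ioc (lev p z + 2) M) ×ˢ range 1) B) :
    Pr μ T ((A ∩ {f | GoodRun p (cur f) z ∧ nextZero p (cur f) z = n}) ∩ B) =
      Pr μ T (A ∩ {f | GoodRun p (cur f) z ∧ nextZero p (cur f) z = n}) * Pr μ T B := by
  classical
  have hd : Disjoint ((bx (range ((lev p z + 3) / 4)) R) ∪
      (bx (Icc ((lev p z + 3) / 4) (lev p z)) (lev p z + 3)))
      ({n} ×ˢ (Ioc (lev p z + 2) M) ×ˢ range 1) := by
    rw [Finset.disjoint_left]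
    rintro ⟨a, b, k⟩ h1 h2
    rw [mem_product] at h2
    have h3 := mem_singleton.1 h2.1
    have h4 := (mem_Ioc.1 (mem_product.1 h2.2).1).1
    rcases mem_union.1 h1 with h1 | h1
    · unfold bx at h1
      have h5 := mem_range.1 (mem_product.1 h1).1
      simp only at h3 h5
      omega
    · unfold bx at h1
      have h5 := mem_range.1 (mem_product.1 (mem_product.1 h1).2).1
      simp only at h4 h5
      omega
  exact GR.dep_indep h.meas h.indep hd (dep_union hA (dep_goodrun_eq hp hz n)) hB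

/-- no large prime divides the value of `q_p` -/
def NoL (p z n : ℕ) : Set (ℕ × ℕ × ℕ → ℕ) :=
  {f | ∀ r, r.Prime → lev p z + 2 < r → r ^ 2 ≤ q p n → ¬ r ∣ q p (cur f n r 0)}

lemma dep_NoL (p z n : ℕ) : Dep ({n} ×ˢ (Ioc (lev p z + 2) (q p n)) ×ˢ range 1) (NoL p z n) := by
  intro f g hfg
  have key : ∀ r, lev p z + 2 < r → r ^ 2 ≤ q p n → cur f n r 0 = cur g n r 0 := by
    intro r h1 h2
    refine hfg (n, r, 0) (mem_product.2 ⟨mem_singleton.2 rfl, mem_product.2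
      ⟨mem_Ioc.2 ⟨h1, ?_⟩, mem_range.2 (by simp)⟩⟩)
    simp only
    nlinarith
  constructor
  · intro hf r h1 h2 h3
    rw [← key r h2 h3]
    exact hf r h1 h2 h3
  · intro hf r h1 h2 h3
    rw [key r h2 h3]
    exact hf r h1 h2 h3

lemma Pr_mono {A B : Set (ℕ × ℕ × ℕ → ℕ)} (h : A ⊆ B) : Pr μ T A ≤ Pr μ T B :=
  measureReal_mono (fun _ hω => h hω) (measure_ne_top _ _)

lemma Pr_nonneg (A : Set (ℕ × ℕ × ℕ → ℕ)) : 0 ≤ Pr μ T A := measureReal_nonneg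

lemma Pr_compl (h : Res μ T) {S : Finset (ℕ × ℕ × ℕ)} {B : Set (ℕ × ℕ × ℕ → ℕ)} (hB : Dep S B) :
    Pr μ T Bᶜ = 1 - Pr μ T B := by
  have h1 : MeasurableSet {ω | (fun i => T i ω) ∈ B} := GR.dep_meas h.meas hB
  have h2 := probReal_compl_eq_one_sub (μ := μ) h1
  exact h2

lemma Pr_empty : Pr μ T (∅ : Set (ℕ × ℕ × ℕ → ℕ)) = 0 := by
  unfold Pr
  simp

end D5Aux

open D5Aux

variable {Ω : Type} [MeasurableSpace Ω] {μ : Measure Ω} [IsProbabilityMeasure μ]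
  {T : ℕ × ℕ × ℕ → Ω → ℕ}

/-- D5: one descent, from `prob_q`. -/
theorem step_prime_of {p : ℕ} (hp : p.Prime) (h : Res μ T) {ε : ℝ}
    (hprob : ∃ z₁ : ℕ, ∀ z ≥ z₁, ∀ {Ω : Type} [MeasurableSpace Ω] (μ : Measure Ω)
      [IsProbabilityMeasure μ] (T : ℕ × ℕ × ℕ → Ω → ℕ), Res μ T → ∀ n : ℕ, lev p z ≤ 4 * n →
      n ≤ lev p z →
      |μ.real {ω | ∀ r, r.Prime → lev p z + 2 < r → r ^ 2 ≤ q p n → ¬ r ∣ q p (res T ω n r 0)}
        - 2 / ((p : ℝ) - 1)| ≤ ε) :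
    ∃ z₂ : ℕ, ∀ z ≥ z₂, ∀ (n R : ℕ) (A : Set (ℕ × ℕ × ℕ → ℕ)),
      Dep (bx (range ((lev p z + 3) / 4)) R) A →
      Pr μ T (A ∩ {f | (GoodRun p (cur f) z ∧ nextZero p (cur f) z = n) ∧ DQPrime p (cur f n) n})
        ≤ (2 / ((p : ℝ) - 1) + ε) *
          Pr μ T (A ∩ {f | GoodRun p (cur f) z ∧ nextZero p (cur f) z = n}) := by
  obtain ⟨z₁, hz₁⟩ := hprob
  refine ⟨max z₁ 1, fun z hz n R A hA => ?_⟩
  have a1 : z₁ ≤ z := le_trans (le_max_left _ _) hz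
  have a2 : 1 ≤ z := le_trans (le_max_right _ _) hz
  by_cases hn : lev p z ≤ 4 * n ∧ n ≤ lev p z
  · have e1 : Pr μ T (NoL p z n) ≤ 2 / ((p : ℝ) - 1) + ε := by
      have := (abs_le.1 (hz₁ z a1 μ T h n hn.1 hn.2)).2
      have e2 : Pr μ T (NoL p z n) = μ.real {ω | ∀ r, r.Prime → lev p z + 2 < r →
        r ^ 2 ≤ q p n → ¬ r ∣ q p (res T ω n r 0)} := rfl
      rw [e2]
      linarith
    have e3 := prodB h hp.one_le a2 hA hn.1 (dep_NoL p z n)
    calc Pr μ T (A ∩ {f | (GoodRun p (cur f) z ∧ nextZero p (cur f) z = n) ∧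
          DQPrime p (cur f n) n})
        ≤ Pr μ T ((A ∩ {f | GoodRun p (cur f) z ∧ nextZero p (cur f) z = n}) ∩ NoL p z n) := by
          refine Pr_mono ?_
          rintro f ⟨h1, h2, h3⟩
          exact ⟨⟨h1, h2⟩, fun r hr _ hr2 => h3 r hr hr2⟩
      _ ≤ _ := by
          rw [e3, mul_comm]
          exact mul_le_mul_of_nonneg_right e1 (Pr_nonneg _)
  · have e1 : ({f | GoodRun p (cur f) z ∧ nextZero p (cur f) z = n} : Set (ℕ × ℕ × ℕ → ℕ)) = ∅ := by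
      ext f
      simp only [Set.mem_setOf_eq, Set.mem_empty_iff_false, iff_false]
      rintro ⟨h1, h2⟩
      refine hn ⟨?_, ?_⟩
      · rw [← h2]
        exact h1.1
      · rw [← h2]
        exact nextZero_le hp.one_le _ a2
    have e2 : (A ∩ {f | (GoodRun p (cur f) z ∧ nextZero p (cur f) z = n) ∧
        DQPrime p (cur f n) n}) ⊆ (∅ : Set (ℕ × ℕ × ℕ → ℕ)) := by
      rintro f ⟨_, h2, _⟩
      rw [← e1]
      exact h2
    rw [e1, Set.inter_empty, Pr_empty, mul_zero]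
    refine (Pr_mono e2).trans (le_of_eq Pr_empty)

theorem step_comp_of {p : ℕ} (hp : p.Prime) (h : Res μ T) {ε : ℝ}
    (hprob : ∃ z₁ : ℕ, ∀ z ≥ z₁, ∀ {Ω : Type} [MeasurableSpace Ω] (μ : Measure Ω)
      [IsProbabilityMeasure μ] (T : ℕ × ℕ × ℕ → Ω → ℕ), Res μ T → ∀ n : ℕ, lev p z ≤ 4 * n →
      n ≤ lev p z →
      |μ.real {ω | ∀ r, r.Prime → lev p z + 2 < r → r ^ 2 ≤ q p n → ¬ r ∣ q p (res T ω n r 0)}
        - 2 / ((p : ℝ) - 1)| ≤ ε) :
    ∃ z₂ : ℕ, ∀ z ≥ z₂, ∀ (n R : ℕ) (A : Set (ℕ × ℕ × ℕ → ℕ)),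
      Dep (bx (range ((lev p z + 3) / 4)) R) A →
      Pr μ T (A ∩ {f | (GoodRun p (cur f) z ∧ nextZero p (cur f) z = n) ∧ ¬ DQPrime p (cur f n) n})
        ≤ (1 - 2 / ((p : ℝ) - 1) + ε) *
          Pr μ T (A ∩ {f | GoodRun p (cur f) z ∧ nextZero p (cur f) z = n}) := by
  obtain ⟨z₁, hz₁⟩ := hprob
  refine ⟨max z₁ 1, fun z hz n R A hA => ?_⟩
  have a1 : z₁ ≤ z := le_trans (le_max_left _ _) hz
  have a2 : 1 ≤ z := le_trans (le_max_right _ _) hz
  by_cases hn : lev p z ≤ 4 * n ∧ n ≤ lev p z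
  · have e1 : Pr μ T (NoL p z n)ᶜ ≤ 1 - 2 / ((p : ℝ) - 1) + ε := by
      have := (abs_le.1 (hz₁ z a1 μ T h n hn.1 hn.2)).1
      have e2 : Pr μ T (NoL p z n) = μ.real {ω | ∀ r, r.Prime → lev p z + 2 < r →
        r ^ 2 ≤ q p n → ¬ r ∣ q p (res T ω n r 0)} := rfl
      rw [Pr_compl h (dep_NoL p z n), e2]
      linarith
    have e3 := prodB h hp.one_le a2 hA hn.1 (dep_compl (dep_NoL p z n))
    calc Pr μ T (A ∩ {f | (GoodRun p (cur f) z ∧ nextZero p (cur f) z = n) ∧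
          ¬ DQPrime p (cur f n) n})
        ≤ Pr μ T ((A ∩ {f | GoodRun p (cur f) z ∧ nextZero p (cur f) z = n}) ∩ (NoL p z n)ᶜ) := by
          refine Pr_mono ?_
          rintro f ⟨h1, h2, h3⟩
          refine ⟨⟨h1, h2⟩, fun h4 => h3 fun r hr hr2 hdvd => ?_⟩
          rcases Nat.lt_or_ge (lev p z + 2) r with h5 | h5
          · exact h4 r hr h5 hr2 hdvd
          · have h6 := h2.1.2 r hr h5
            rw [h2.2] at h6
            exact h6 (root_of_dvd hdvd)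
      _ ≤ _ := by
          rw [e3, mul_comm]
          exact mul_le_mul_of_nonneg_right e1 (Pr_nonneg _)
  · have e1 : ({f | GoodRun p (cur f) z ∧ nextZero p (cur f) z = n} : Set (ℕ × ℕ × ℕ → ℕ)) = ∅ := by
      ext f
      simp only [Set.mem_setOf_eq, Set.mem_empty_iff_false, iff_false]
      rintro ⟨h1, h2⟩
      refine hn ⟨?_, ?_⟩
      · rw [← h2]
        exact h1.1
      · rw [← h2]
        exact nextZero_le hp.one_le _ a2
    have e2 : (A ∩ {f | (GoodRun p (cur f) z ∧ nextZero p (cur f) z = n) ∧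
        ¬ DQPrime p (cur f n) n}) ⊆ (∅ : Set (ℕ × ℕ × ℕ → ℕ)) := by
      rintro f ⟨_, h2, _⟩
      rw [← e1]
      exact h2
    rw [e1, Set.inter_empty, Pr_empty, mul_zero]
    refine (Pr_mono e2).trans (le_of_eq Pr_empty)

end Pool.Agent.L5helper32.GP
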