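import Pool.Agent.L5helper32.GP.Win
import Pool.Agent.L5helper32.GR.Five2
import Pool.Agent.L5helper83.GR2Num

/-! Job GP19: q_root, q_noroot, win_bad and win_good for independent random digits. -/

set_option autoImplicit false

open Finset MeasureTheory ProbabilityTheory

namespace Pool.Agent.L5helper32.GP

open Pool.Agent.L5helper32.GR (Root w pr sg Dep lev q)

/-- `n` is prime for the first digits. -/
def DNPrime (D : ℕ → ℕ → ℕ) (n : ℕ) : Prop := ∀ r, r.Prime → r ^ 2 ≤ n → D r 0 ≠ 0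

/-- `q_p(n)` is prime for the first digits. -/
def DQPrime (p : ℕ) (D : ℕ → ℕ → ℕ) (n : ℕ) : Prop :=
  ∀ r, r.Prime → r ^ 2 ≤ q p n → ¬ r ∣ q p (D r 0)

namespace FiveAux

lemma dep_union {ι : Type} [DecidableEq ι] {S S' : Finset ι} {A B : Set (ι → ℕ)} (hA : Dep S A)
    (hB : Dep S' B) : Dep (S ∪ S') (A ∩ B) := by
  intro f g h
  have h1 := hA f g fun i hi => h i (mem_union_left _ hi)
  have h2 := hB f g fun i hi => h i (mem_union_right _ hi)
  exact and_congr h1 h2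

lemma t_mul_q (p t : ℕ) : t * q p t + 1 = (t + 1) ^ p := by
  have h1 : q p t = ∑ m ∈ range p, p.choose (m + 1) * t ^ m := by
    unfold q
    have h2 : Icc 1 p = Ico 1 (p + 1) := by
      ext x
      simp only [mem_Icc, mem_Ico]
      omega
    rw [h2, Finset.sum_Ico_eq_sum_range]
    refine Finset.sum_congr (by simp) fun m _ => ?_
    rw [add_comm 1 m, Nat.add_sub_cancel]
  rw [h1, add_pow, Finset.sum_range_succ', Finset.mul_sum]
  simp only [one_pow, mul_one, pow_zero, Nat.choose_zero_right]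
  congr 1
  refine Finset.sum_congr rfl fun m _ => ?_
  rw [pow_succ, Nat.cast_id]
  ring

lemma root_of_dvd {p r t : ℕ} (h : r ∣ q p t) : Root p r t := by
  unfold Root
  rw [← t_mul_q]
  have h1 : t * q p t ≡ 0 [MOD r] := (Nat.modEq_zero_iff_dvd).2 (Dvd.dvd.mul_left h t)
  simpa using h1.add_right 1

lemma root_zero (p r : ℕ) : Root p r 0 := by
  unfold Root
  simp [Nat.ModEq]

variable {Ω : Type} [MeasurableSpace Ω] {μ : Measure Ω} [IsProbabilityMeasure μ]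
  {T : ℕ × ℕ × ℕ → Ω → ℕ}

/-- The product formula, summed over the next zero. -/
theorem combine {p : ℕ} (hp : 1 ≤ p) (h : Res μ T) {z : ℕ} (hz : 1 ≤ z) {c d : ℝ} (hd : 0 ≤ d)
    (hwin : c ≤ Pr μ T {f | WinRun p (cur f) z}) (M : ℕ → ℕ) (B : ℕ → Set (ℕ × ℕ × ℕ → ℕ))
    (hB : ∀ n, Dep ({n} ×ˢ (Ioc (lev p z + 2) (M n)) ×ˢ range 1) (B n))
    (hBp : ∀ n, lev p (z - 1) < n → n ≤ lev p z → d ≤ Pr μ T (B n))
    (R : ℕ) (A : Set (ℕ × ℕ × ℕ → ℕ)) (hA : Dep (bx (range (lev p (z - 1) + 1)) R) A)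
    (H : Set (ℕ × ℕ × ℕ → ℕ))
    (hH : ∀ f, WinRun p (cur f) z → nextZero p (cur f) z ≤ lev p z →
      f ∈ B (nextZero p (cur f) z) → f ∈ H) :
    c * d * Pr μ T A ≤ Pr μ T (A ∩ H) := by
  classical
  set N : Finset ℕ := Ioc (lev p (z - 1)) (lev p z) with hN
  set W : ℕ → Set (ℕ × ℕ × ℕ → ℕ) := fun n => {f | WinRun p (cur f) z ∧ nextZero p (cur f) z = n}
    with hW
  have hWdep : ∀ n, Dep (bx (Icc (lev p (z - 1) + 1) (lev p z)) (lev p z + 3)) (W n) :=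
    fun n => dep_winrun_eq hp hz n
  have hprob : ∀ n ∈ N, Pr μ T ((A ∩ W n) ∩ B n) = Pr μ T A * Pr μ T (W n) * Pr μ T (B n) := by
    intro n hn
    rw [hN, mem_Ioc] at hn
    have hd1 : Disjoint (bx (range (lev p (z - 1) + 1)) R)
        (bx (Icc (lev p (z - 1) + 1) (lev p z)) (lev p z + 3)) := by
      rw [Finset.disjoint_left]
      rintro ⟨a, b, k⟩ h1 h2
      unfold bx at h1 h2
      rw [mem_product] at h1 h2
      have h3 := mem_range.1 h1.1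
      have h4 := (mem_Icc.1 h2.1).1
      simp only at h3 h4
      omega
    have hd2 : Disjoint ((bx (range (lev p (z - 1) + 1)) R) ∪
        (bx (Icc (lev p (z - 1) + 1) (lev p z)) (lev p z + 3)))
        ({n} ×ˢ (Ioc (lev p z + 2) (M n)) ×ˢ range 1) := by
      rw [Finset.disjoint_left]
      rintro ⟨a, b, k⟩ h1 h2
      rw [mem_product] at h2
      have h3 := mem_singleton.1 h2.1
      have h4 := (mem_Ioc.1 (mem_product.1 h2.2).1).1
      rcases mem_union.1 h1 with h1 | h1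
      · unfold bx at h1
        have h5 := mem_range.1 (mem_product.1 h1).1
        simp only at h3 h5
        omega
      · unfold bx at h1
        have h5 := mem_range.1 (mem_product.1 (mem_product.1 h1).2).1
        simp only at h4 h5
        omega
    have e1 := GR.dep_indep h.meas h.indep hd1 hA (hWdep n)
    have e2 := GR.dep_indep h.meas h.indep hd2 (dep_union hA (hWdep n)) (hB n)
    have e3 : Pr μ T ((A ∩ W n) ∩ B n) = Pr μ T (A ∩ W n) * Pr μ T (B n) := e2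
    have e4 : Pr μ T (A ∩ W n) = Pr μ T A * Pr μ T (W n) := e1
    rw [e3, e4]
  have hpos : ∀ X : Set (ℕ × ℕ × ℕ → ℕ), 0 ≤ Pr μ T X := fun X => measureReal_nonneg
  -- the sum over `n`
  have hsum : ∑ n ∈ N, Pr μ T ((A ∩ W n) ∩ B n) ≤ Pr μ T (A ∩ H) := by
    have hmeas : ∀ n ∈ N, MeasurableSet {ω | (fun i => T i ω) ∈ (A ∩ W n) ∩ B n} := fun n _ =>
      GR.dep_meas h.meas (dep_union (dep_union hA (hWdep n)) (hB n))
    have hdisj : Set.PairwiseDisjoint (↑N) (fun n => {ω | (fun i => T i ω) ∈ (A ∩ W n) ∩ B n}) := by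
      intro n _ m _ hnm
      rw [Function.onFun, Set.disjoint_left]
      intro ω h1 h2
      apply hnm
      have h3 := h1.1.2.2
      have h4 := h2.1.2.2
      exact h3.symm.trans h4
    have e : μ.real (⋃ n ∈ N, {ω | (fun i => T i ω) ∈ (A ∩ W n) ∩ B n}) =
        ∑ n ∈ N, Pr μ T ((A ∩ W n) ∩ B n) :=
      measureReal_biUnion_finset hdisj hmeas
    rw [← e]
    refine measureReal_mono ?_ (measure_ne_top μ _)
    intro ω hω
    rw [Set.mem_iUnion₂] at hω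
    obtain ⟨n, hn, h1⟩ := hω
    refine ⟨h1.1.1, hH _ h1.1.2.1 (nextZero_le hp _ hz) ?_⟩
    have h3 : nextZero p (cur fun i => T i ω) z = n := h1.1.2.2
    rw [h3]
    exact h1.2
  have hwin2 : Pr μ T {f | WinRun p (cur f) z} ≤ ∑ n ∈ N, Pr μ T (W n) := by
    have e : μ.real (⋃ n ∈ N, {ω | (fun i => T i ω) ∈ W n}) ≤ ∑ n ∈ N, Pr μ T (W n) :=
      measureReal_biUnion_finset_le N _
    refine le_trans (measureReal_mono ?_ (measure_ne_top μ _)) e
    intro ω hω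
    rw [Set.mem_iUnion₂]
    have hω' : WinRun p (cur fun i => T i ω) z := hω
    exact ⟨nextZero p (cur fun i => T i ω) z,
      mem_Ioc.2 ⟨hω'.1, nextZero_le hp _ hz⟩, hω', rfl⟩
  calc c * d * Pr μ T A ≤ (∑ n ∈ N, Pr μ T (W n)) * d * Pr μ T A := by
        refine mul_le_mul_of_nonneg_right (mul_le_mul_of_nonneg_right (hwin.trans hwin2) hd) (hpos A)
    _ = ∑ n ∈ N, Pr μ T A * Pr μ T (W n) * d := by
        rw [Finset.sum_mul, Finset.sum_mul]
        refine Finset.sum_congr rfl fun n _ => ?_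
        ring
    _ ≤ ∑ n ∈ N, Pr μ T ((A ∩ W n) ∩ B n) := by
        refine Finset.sum_le_sum fun n hn => ?_
        rw [hprob n hn]
        rw [hN, mem_Ioc] at hn
        exact mul_le_mul_of_nonneg_left (hBp n hn.1 hn.2) (mul_nonneg (hpos A) (hpos _))
    _ ≤ Pr μ T (A ∩ H) := hsum

end FiveAux

open FiveAux

variable {Ω : Type} [MeasurableSpace Ω] {μ : Measure Ω} [IsProbabilityMeasure μ]
  {T : ℕ × ℕ × ℕ → Ω → ℕ}

theorem q_root {p : ℕ} (hp : p.Prime) (h5 : 5 ≤ p) : ∃ c : ℝ, 0 < c ∧ ∃ z₁ : ℕ, ∀ z ≥ z₁,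
    ∀ {Ω : Type} [MeasurableSpace Ω] (μ : Measure Ω) [IsProbabilityMeasure μ]
      (T : ℕ × ℕ × ℕ → Ω → ℕ), Res μ T → ∀ n, lev p z ≤ 4 * n →
      c ≤ μ.real {ω | ∃ r, r.Prime ∧ lev p z + 2 < r ∧ r ^ 2 ≤ q p n ∧
        r ∣ q p (res T ω n r 0)} := by
  obtain ⟨c, hc, z₁, h⟩ := GR.q_root hp h5
  exact ⟨c, hc, z₁, fun z hz _ _ μ _ _ hT n hn => h z hz μ _ hT.zero n hn⟩

theorem q_noroot {p : ℕ} (hp : p.Prime) : ∃ c : ℝ, 0 < c ∧ ∃ z₁ : ℕ, ∀ z ≥ z₁,
    ∀ {Ω : Type} [MeasurableSpace Ω] (μ : Measure Ω) [IsProbabilityMeasure μ]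
      (T : ℕ × ℕ × ℕ → Ω → ℕ), Res μ T → ∀ n, n ≤ lev p z →
      c ≤ μ.real {ω | ∀ r, r.Prime → lev p z + 2 < r → r ^ 2 ≤ q p n →
        ¬ Root p r (res T ω n r 0)} := by
  obtain ⟨c, hc, z₁, h⟩ := GR.q_noroot hp
  exact ⟨c, hc, z₁, fun z hz _ _ μ _ _ hT n hn => h z hz μ _ hT.zero n hn⟩

/-- Composite values of `q_p`. -/
theorem win_bad {p : ℕ} (hp : p.Prime) (h5 : 5 ≤ p) (h : Res μ T) : ∃ c : ℝ, 0 < c ∧ ∃ z₁ : ℕ,
    ∀ z ≥ z₁, ∀ (R : ℕ) (A : Set (ℕ × ℕ × ℕ → ℕ)), Dep (bx (range (lev p (z - 1) + 1)) R) A →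
      c * Pr μ T A ≤ Pr μ T (A ∩ {f | WinRun p (cur f) z ∧
        ¬ DQPrime p (cur f (nextZero p (cur f) z)) (nextZero p (cur f) z)}) := by
  obtain ⟨c₁, hc₁, z₁, hz₁⟩ := win hp
  obtain ⟨c₂, hc₂, z₂, hz₂⟩ := q_root hp h5
  obtain ⟨z₃, hz₃⟩ := GR.lev_win hp.two_le
  refine ⟨c₁ * c₂, mul_pos hc₁ hc₂, max (max z₁ z₂) (max z₃ 1), fun z hz R A hA => ?_⟩
  have a1 : z₁ ≤ z := le_trans (le_trans (le_max_left _ _) (le_max_left _ _)) hz
  have a2 : z₂ ≤ z := le_trans (le_trans (le_max_right _ _) (le_max_left _ _)) hz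
  have a3 : z₃ ≤ z := le_trans (le_trans (le_max_left _ _) (le_max_right _ _)) hz
  have a4 : 1 ≤ z := le_trans (le_trans (le_max_right _ _) (le_max_right _ _)) hz
  refine combine hp.one_le h a4 hc₂.le (hz₁ z a1 μ T h) (fun n => q p n)
    (fun n => {f | ∃ r, r.Prime ∧ lev p z + 2 < r ∧ r ^ 2 ≤ q p n ∧ r ∣ q p (cur f n r 0)})
    ?_ ?_ R A hA _ ?_
  · intro n f g hfg
    have key : ∀ r, lev p z + 2 < r → r ^ 2 ≤ q p n → cur f n r 0 = cur g n r 0 := by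
      intro r h1 h2
      refine hfg (n, r, 0) (mem_product.2 ⟨mem_singleton.2 rfl, mem_product.2
        ⟨mem_Ioc.2 ⟨h1, ?_⟩, mem_range.2 (by simp)⟩⟩)
      simp only
      nlinarith
    constructor
    · rintro ⟨r, h1, h2, h3, h4⟩
      exact ⟨r, h1, h2, h3, by rw [← key r h2 h3]; exact h4⟩
    · rintro ⟨r, h1, h2, h3, h4⟩
      exact ⟨r, h1, h2, h3, by rw [key r h2 h3]; exact h4⟩
  · intro n hn1 _
    exact hz₂ z a2 μ T h n (hz₃ z a3 n hn1)
  · rintro f h1 _ ⟨r, h3, h4, h5, h6⟩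
    exact ⟨h1, fun hq => hq r h3 h5 h6⟩

/-- Prime values. -/
theorem win_good {p : ℕ} (hp : p.Prime) (h : Res μ T) : ∃ c : ℝ, 0 < c ∧ ∃ z₁ : ℕ,
    ∀ z ≥ z₁, ∀ (R : ℕ) (A : Set (ℕ × ℕ × ℕ → ℕ)), Dep (bx (range (lev p (z - 1) + 1)) R) A →
      c * Pr μ T A ≤ Pr μ T (A ∩ {f | WinRun p (cur f) z ∧
        DNPrime (cur f (nextZero p (cur f) z)) (nextZero p (cur f) z) ∧
        DQPrime p (cur f (nextZero p (cur f) z)) (nextZero p (cur f) z)}) := by
  obtain ⟨c₁, hc₁, z₁, hz₁⟩ := win hp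
  obtain ⟨c₂, hc₂, z₂, hz₂⟩ := q_noroot hp
  refine ⟨c₁ * c₂, mul_pos hc₁ hc₂, max (max z₁ z₂) 1, fun z hz R A hA => ?_⟩
  have a1 : z₁ ≤ z := le_trans (le_trans (le_max_left _ _) (le_max_left _ _)) hz
  have a2 : z₂ ≤ z := le_trans (le_trans (le_max_right _ _) (le_max_left _ _)) hz
  have a4 : 1 ≤ z := le_trans (le_max_right _ _) hz
  refine combine hp.one_le h a4 hc₂.le (hz₁ z a1 μ T h) (fun n => q p n)
    (fun n => {f | ∀ r, r.Prime → lev p z + 2 < r → r ^ 2 ≤ q p n → ¬ Root p r (cur f n r 0)})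
    ?_ ?_ R A hA _ ?_
  · intro n f g hfg
    have key : ∀ r, lev p z + 2 < r → r ^ 2 ≤ q p n → cur f n r 0 = cur g n r 0 := by
      intro r h1 h2
      refine hfg (n, r, 0) (mem_product.2 ⟨mem_singleton.2 rfl, mem_product.2
        ⟨mem_Ioc.2 ⟨h1, ?_⟩, mem_range.2 (by simp)⟩⟩)
      simp only
      nlinarith
    constructor
    · intro hf r h1 h2 h3
      rw [← key r h2 h3]
      exact hf r h1 h2 h3
    · intro hf r h1 h2 h3
      rw [key r h2 h3]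
      exact hf r h1 h2 h3
  · intro n _ hn2
    exact hz₂ z a2 μ T h n hn2
  · intro f h1 h2 h3
    refine ⟨h1, fun r hr hr2 h0 => ?_, fun r hr hr2 hdvd => ?_⟩
    · refine h1.2 r hr ?_ ?_
      · nlinarith
      · rw [h0]
        exact root_zero p r
    · rcases Nat.lt_or_ge (lev p z + 2) r with h4 | h4
      · exact h3 r hr h4 hr2 (root_of_dvd hdvd)
      · exact h1.2 r hr h4 (root_of_dvd hdvd)

end Pool.Agent.L5helper32.GP
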