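import Pool.Agent.L5helper66.TD.FamC

/-!
# The elliptic family of tetrahedra has Dehn invariant zero
-/

set_option autoImplicit false

open scoped TensorProduct RealInnerProductSpace

namespace Pool.Agent.L5helper67.NH

open Pool.Agent.L5helper66.TD
open Pool.Agent.L5helper97.NF (term_dist)

/-- NH1 -/
theorem E_dehn (t w : ℝ) (ht : 0 < t) (ht1 : t < 1) (hw : 0 < w)
    (hw2 : w ^ 2 = 1 - t ^ 2 + t ^ 4 / 9) (T : Fin 4 → E3)
    (h : HasEdges T 1 1 t (1 - t ^ 2 / 3) (w + t ^ 2 / 3) (w - t ^ 2 / 3)) : dehn T = 0 := by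
  obtain ⟨g01, g02, g03, g12, g13, g23⟩ := h
  have ht2 : t ^ 2 < 1 := by nlinarith
  have ht0 : 0 < t ^ 2 := by positivity
  have p1 : 0 < 1 - t ^ 2 := by linarith
  have p9 : 0 < 9 - t ^ 2 := by linarith
  have p3 : 0 < 3 - t ^ 2 := by linarith
  have pd : 0 < 1 - t ^ 2 / 3 := by linarith
  have pe : 0 < w + t ^ 2 / 3 := by positivity
  have pf : 0 < w - t ^ 2 / 3 := by
    by_contra hneg
    have h1 : w ≤ t ^ 2 / 3 := by linarith
    have h2 : w ^ 2 ≤ (t ^ 2 / 3) ^ 2 := pow_le_pow_left₀ hw.le h1 2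
    nlinarith
  have h01 : dist (T 0) (T 1) = |1| := by rw [g01, abs_one]
  have h02 : dist (T 0) (T 2) = |1| := by rw [g02, abs_one]
  have h03 : dist (T 0) (T 3) = |t| := by rw [g03, abs_of_pos ht]
  have h12 : dist (T 1) (T 2) = |1 - t ^ 2 / 3| := by rw [g12, abs_of_pos pd]
  have h13 : dist (T 1) (T 3) = |w + t ^ 2 / 3| := by rw [g13, abs_of_pos pe]
  have h23 : dist (T 2) (T 3) = |w - t ^ 2 / 3| := by rw [g23, abs_of_pos pf]
  have hcmv : cm 1 1 t (1 - t ^ 2 / 3) (w + t ^ 2 / 3) (w - t ^ 2 / 3) =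
      2 / 27 * t ^ 2 * (1 - t ^ 2) ^ 2 * (9 - t ^ 2) ^ 2 := by
    unfold cm
    linear_combination ((2/81 : ℝ) * t^8 + (14/27 : ℝ) * t^6 + (-2/9 : ℝ) * t^4 * w^2 +
      (-64/9 : ℝ) * t^4 + (4/3 : ℝ) * t^2 * w^2 + (14/3 : ℝ) * t^2 + (-2) * w^2 + (2)) * hw2
  have hcm : 0 < cm 1 1 t (1 - t ^ 2 / 3) (w + t ^ 2 / 3) (w - t ^ 2 / 3) := by
    rw [hcmv]
    positivity
  set s : ℝ := √(2 * cm 1 1 t (1 - t ^ 2 / 3) (w + t ^ 2 / 3) (w - t ^ 2 / 3)) with hs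
  set r : ℝ := √3 with hr
  have hr0 : 0 < r := Real.sqrt_pos.2 (by norm_num)
  have hr2 : r ^ 2 = 3 := Real.sq_sqrt (by norm_num)
  have hsr : s = 2 * r / 9 * t * (1 - t ^ 2) * (9 - t ^ 2) := by
    have e1 : 2 * cm 1 1 t (1 - t ^ 2 / 3) (w + t ^ 2 / 3) (w - t ^ 2 / 3) =
        (2 * r / 9 * t * (1 - t ^ 2) * (9 - t ^ 2)) ^ 2 := by
      rw [hcmv]
      linear_combination (-(4 / 81 * t ^ 2 * (1 - t ^ 2) ^ 2 * (9 - t ^ 2) ^ 2)) * hr2
    rw [hs, e1, Real.sqrt_sq (by positivity)]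
  -- the six angles
  obtain ⟨A, tA, dA⟩ := term_dist (T 0) (T 1) (T 2) (T 3) _ _ _ _ _ _ h01 h02 h03 h12 h13 h23 hcm
  obtain ⟨B, tB, dB⟩ := term_dist (T 0) (T 2) (T 1) (T 3) _ _ _ _ _ _ h02 h01 h03
    ((dist_comm _ _).trans h12) h23 h13 (by rw [cm_p1]; exact hcm)
  obtain ⟨C, tC, dC⟩ := term_dist (T 0) (T 3) (T 1) (T 2) _ _ _ _ _ _ h03 h01 h02
    ((dist_comm _ _).trans h13) ((dist_comm _ _).trans h23) h12 (by rw [cm_p2]; exact hcm)
  obtain ⟨D, tD, dD⟩ := term_dist (T 1) (T 2) (T 0) (T 3) _ _ _ _ _ _ h12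
    ((dist_comm _ _).trans h01) h13 ((dist_comm _ _).trans h02) h23 h03
    (by rw [cm_p3]; exact hcm)
  obtain ⟨E, tE, dE⟩ := term_dist (T 1) (T 3) (T 0) (T 2) _ _ _ _ _ _ h13
    ((dist_comm _ _).trans h01) h12 ((dist_comm _ _).trans h03) ((dist_comm _ _).trans h23) h02
    (by rw [cm_p4]; exact hcm)
  obtain ⟨F, tF, dF⟩ := term_dist (T 2) (T 3) (T 0) (T 1) _ _ _ _ _ _ h23
    ((dist_comm _ _).trans h02) ((dist_comm _ _).trans h12) ((dist_comm _ _).trans h03)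
    ((dist_comm _ _).trans h13) h01 (by rw [cm_p5]; exact hcm)
  rw [cm_p1] at dB
  rw [cm_p2] at dC
  rw [cm_p3] at dD
  rw [cm_p4] at dE
  rw [cm_p5] at dF
  rw [← hs, hsr] at dA dB dC dD dE dF
  clear_value s r
  -- simplified directions
  have zA : Dir A (t * ((3 - t ^ 2) ^ 2 + 3 * w * (3 + t ^ 2))) (9 * r * (1 - t ^ 2)) := by
    refine dA.scale (c := 2 / 81 * t * (9 - t ^ 2)) (by positivity) ?_ ?_
    · linear_combination (-((-1/9 : ℝ) * t^4 + (2/3 : ℝ) * t^2 + (-1))) * hw2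
    · ring
  have zB : Dir B (t * ((3 - t ^ 2) ^ 2 - 3 * w * (3 + t ^ 2))) (9 * r * (1 - t ^ 2)) := by
    refine dB.scale (c := 2 / 81 * t * (9 - t ^ 2)) (by positivity) ?_ ?_
    · linear_combination (-((-1/9 : ℝ) * t^4 + (2/3 : ℝ) * t^2 + (-1))) * hw2
    · ring
  have zC : Dir C 1 r := by
    refine dC.scale (c := 2 / 9 * t ^ 2 * (1 - t ^ 2) * (9 - t ^ 2)) (by positivity) ?_ ?_
    · linear_combination (-((1/9 : ℝ) * t^4 + (3) * t^2 + (-1) * w^2 + (1))) * hw2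
    · ring
  have zD : Dir D (3 - t ^ 2) (2 * r * t) := by
    refine dD.scale (c := 1 / 27 * (1 - t ^ 2) * (9 - t ^ 2) * (3 - t ^ 2)) (by positivity) ?_ ?_
    · linear_combination (-((2/9 : ℝ) * t^4 + (-4/3 : ℝ) * t^2 + (2))) * hw2
    · ring
  have zE : Dir E (-t) r := by
    refine dE.scale (c := 2 / 9 * t * (1 - t ^ 2) * (9 - t ^ 2) * (w + t ^ 2 / 3))
      (by positivity) ?_ ?_
    · linear_combination (-((-7/9 : ℝ) * t^4 + (-4/3 : ℝ) * t^2 * w + (-2/3 : ℝ) * t^2 + (1))) * hw2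
    · ring
  have zF : Dir F t r := by
    refine dF.scale (c := 2 / 9 * t * (1 - t ^ 2) * (9 - t ^ 2) * (w - t ^ 2 / 3))
      (by positivity) ?_ ?_
    · linear_combination (-((-7/9 : ℝ) * t^4 + (4/3 : ℝ) * t^2 * w + (-2/3 : ℝ) * t^2 + (1))) * hw2
    · ring
  -- relations
  have e1 : ang (E + F) = 0 := (zE.mul zF).ang_eq_zero' (by ring)
  have e2 : ang (D + (F + F)) = 0 := by
    refine (zD.mul (zF.mul zF)).ang_eq_zero' ?_
    linear_combination (-(2 * r * t)) * hr2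
  have e3 : ang (A + B + -(F + F)) = 0 := by
    refine ((zA.mul zB).mul (zF.mul zF).neg).ang_eq_zero' ?_
    linear_combination ((18) * t^7 * r + (36) * t^5 * r + (-54) * t^3 * r) * hr2 +
      ((18) * t^7 * r + (108) * t^5 * r + (162) * t^3 * r) * hw2
  have e4 : ang (C + C + C) = 0 := by
    refine ((zC.mul zC).mul zC).ang_eq_zero' ?_
    linear_combination (-r) * hr2
  simp only [ang_add, ang_neg] at e1 e2 e3 e4
  have f1 : ang E = (-1 : ℤ) • ang F := by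
    rw [eq_neg_of_add_eq_zero_left e1]
    abel
  have f2 : ang D = (-2 : ℤ) • ang F := by
    rw [eq_neg_of_add_eq_zero_left e2]
    abel
  have f3 : ang A = (2 : ℤ) • ang F + (-1 : ℤ) • ang B := by
    have : ang A = ang A - 0 := by rw [sub_zero]
    rw [this, ← e3]
    abel
  have f4 : t ⊗ₜ[ℤ] ang C = 0 := by
    have h1 : (3 : ℤ) • ang C = 0 := by
      rw [← e4]
      abel
    have h2 := tmul_zs (t / 3) 3 (ang C)
    rw [h1, TensorProduct.tmul_zero] at h2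
    have h3 : ((3 : ℤ) : ℝ) * (t / 3) = t := by
      push_cast
      ring
    rw [h3] at h2
    exact h2.symm
  unfold dehn
  rw [tA, tB, tC, tD, tE, tF, f1, f2, f3, f4]
  simp only [TensorProduct.tmul_add, tmul_zs]
  have k1 : (((2 : ℤ) : ℝ) * 1) ⊗ₜ[ℤ] ang F + (((-2 : ℤ) : ℝ) * (1 - t ^ 2 / 3)) ⊗ₜ[ℤ] ang F +
      (((-1 : ℤ) : ℝ) * (w + t ^ 2 / 3)) ⊗ₜ[ℤ] ang F + (w - t ^ 2 / 3) ⊗ₜ[ℤ] ang F = 0 := by
    rw [← TensorProduct.add_tmul, ← TensorProduct.add_tmul, ← TensorProduct.add_tmul]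
    have : ((2 : ℤ) : ℝ) * 1 + ((-2 : ℤ) : ℝ) * (1 - t ^ 2 / 3) +
        ((-1 : ℤ) : ℝ) * (w + t ^ 2 / 3) + (w - t ^ 2 / 3) = 0 := by
      push_cast
      ring
    rw [this, TensorProduct.zero_tmul]
  have k2 : (((-1 : ℤ) : ℝ) * 1) ⊗ₜ[ℤ] ang B + (1 : ℝ) ⊗ₜ[ℤ] ang B = 0 := by
    rw [← TensorProduct.add_tmul]
    have : ((-1 : ℤ) : ℝ) * 1 + 1 = 0 := by
      push_cast
      ring
    rw [this, TensorProduct.zero_tmul]
  have k3 := congrArg₂ (· + ·) k1 k2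
  simp only [add_zero] at k3
  refine Eq.trans ?_ k3
  abel

end Pool.Agent.L5helper67.NH
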