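import Pool.Agent.L5helper13.TQ.Defs

/-!
TQ7: comparison of the homogeneous parts.
-/

set_option autoImplicit false

namespace Pool.Agent.L5helper13.TQ

/-- TQ7 -/
theorem compare (k : Type) [Field k] [CharZero k] (V : Type) [AddCommGroup V] [Module k V]
    (l1 l2 l3 : V →ₗ[k] V) (B1 B2 B3 : V →ₗ[k] V →ₗ[k] V) (hsym : ∀ x y, B2 x y = B2 y x)
    (h : ∀ x, l1 x + B1 x x = l2 (l3 x + B3 x x) + B2 (l3 x + B3 x x) (l3 x + B3 x x)) (x : V) :
    l1 x = l2 (l3 x) ∧ B1 x x = l2 (B3 x x) + B2 (l3 x) (l3 x) ∧ B2 (l3 x) (B3 x x) = 0 ∧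
      B2 (B3 x x) (B3 x x) = 0 := by
  have key : ∀ c : k, c • (l1 x - l2 (l3 x)) +
      c ^ 2 • (B1 x x - l2 (B3 x x) - B2 (l3 x) (l3 x)) -
      (2 * c ^ 3) • B2 (l3 x) (B3 x x) - c ^ 4 • B2 (B3 x x) (B3 x x) = 0 := by
    intro c
    have h1 := h (c • x)
    simp only [map_smul, map_add, LinearMap.add_apply, LinearMap.smul_apply, smul_add, smul_smul,
      hsym (B3 x x) (l3 x)] at h1
    linear_combination (norm := module) h1
  have k1 := key 1
  have k2 := key (-1)
  have k3 := key 2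
  have k4 := key (-2)
  have e4 : B2 (B3 x x) (B3 x x) = 0 := by
    have h5 : (24 : k) • B2 (B3 x x) (B3 x x) = 0 := by
      linear_combination (norm := module) (4 : k) • k1 + (4 : k) • k2 - k3 - k4
    exact (smul_eq_zero.1 h5).resolve_left (by norm_num)
  have e3 : B2 (l3 x) (B3 x x) = 0 := by
    have h5 : (24 : k) • B2 (l3 x) (B3 x x) = 0 := by
      linear_combination (norm := module) (2 : k) • k1 - (2 : k) • k2 - k3 + k4
    exact (smul_eq_zero.1 h5).resolve_left (by norm_num)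
  rw [e3, e4] at k1 k2
  have e2 : B1 x x - l2 (B3 x x) - B2 (l3 x) (l3 x) = 0 := by
    have h5 : (2 : k) • (B1 x x - l2 (B3 x x) - B2 (l3 x) (l3 x)) = 0 := by
      linear_combination (norm := module) k1 + k2
    exact (smul_eq_zero.1 h5).resolve_left (by norm_num)
  have e1 : l1 x - l2 (l3 x) = 0 := by
    have h5 : (2 : k) • (l1 x - l2 (l3 x)) = 0 := by
      linear_combination (norm := module) k1 - k2
    exact (smul_eq_zero.1 h5).resolve_left (by norm_num)
  refine ⟨sub_eq_zero.1 e1, ?_, e3, e4⟩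
  rw [sub_sub] at e2
  exact sub_eq_zero.1 e2

end Pool.Agent.L5helper13.TQ
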